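import Pool.Agent.Helper85.HT.Top

/-!
# `{x | x ∈ L_{λ^x}}` is not the largest thin eventually semidecidable set of reals

Definitions (in `Pool.Agent.Helper85.HT.Defs`): Hamkins-Lewis machines with three tapes (`Prog`),
their runs through the ordinals (`Prog.run`), semidecidable and eventually semidecidable sets, thin
sets, writable ordinals and `lam x`, the constructible hierarchy `Lset`, and
`S = {x | x ∈ L_{λ^x}}`.

The theorem: there is a nonempty countable (so thin) set of reals which is eventually
semidecidable, has a semidecidable complement, and has no element in common with `S`.  So `S` is
not the largest thin eventually semidecidable set.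
-/

namespace Pool.Agent.Results.MP_0e6b04_lc.ThinEventuallySemidecidable

open Pool.Agent.HT

/-- Some nonempty countable eventually semidecidable set with semidecidable complement is disjoint
from `S`; so `S` is not the largest thin eventually semidecidable set. -/
theorem result :
    (∃ A : Set Cantor, EvSemidecidable A ∧ Semidecidable Aᶜ ∧ A.Nonempty ∧ A.Countable ∧
      ∀ x ∈ A, x ∉ S) ∧
    ¬ IsLargestThin {A | EvSemidecidable A} S :=
  ⟨main, largest_thin_false⟩

end Pool.Agent.Results.MP_0e6b04_lc.ThinEventuallySemidecidable
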